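import Pool.Agent.Helper70.DK.Defs2

/-!
# Module COREH: finitely many patterns, almost every parameter
-/

set_option autoImplicit false

namespace Pool.Agent.Helper70.DK

open Finset MeasureTheory

/-- the Diophantine property depends only on the patterns of the window -/
theorem coreh_dio {m : ℕ} {ι : Type} (σ : Sys m ι) (B C : ℕ) (t : ℝ) (i i' n : ℕ)
    (h : ∀ q : Fin n, σ.dg (i + q) = σ.dg (i' + q) ∧ σ.ph (i + q) = σ.ph (i' + q)) :
    σ.Dio B C t i n ↔ σ.Dio B C t i' n := by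
  have hD : σ.D B i n = σ.D B i' n := by
    funext u c
    simp only [Sys.D]
    refine Finset.sum_congr rfl fun q _ => ?_
    rw [(h q).1]
  have hP : σ.P B t i n = σ.P B t i' n := by
    funext u c
    simp only [Sys.P]
    refine Finset.sum_congr rfl fun q _ => ?_
    rw [(h q).1, (h q).2]
  unfold Sys.Dio
  rw [hD, hP]

/-- measure of the parameters for which some window of length `n` is not Diophantine -/
theorem coreh_meas (hM : ST_DMEAS) {m K B : ℕ} {ι : Type} [Fintype ι] (σ : Sys m ι) (hm : 1 ≤ m)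
    (hB : 2 ≤ B) (hcard : Fintype.card ι ≤ B ^ m) (n : ℕ)
    (hfin : (Set.range fun j => (σ.dg j, σ.ph j)).Finite) :
    volume {t : ℝ | ∃ i, ¬ σ.Dio B (m * (2 * m ^ 2 + K)) t i n} ≤
      ENNReal.ofReal ((hfin.toFinset.card : ℝ) ^ n * (2 * (m : ℝ) ^ (m + 2) / (B : ℝ) ^ (K * n))) := by
  classical
  have hsub : {t : ℝ | ∃ i, ¬ σ.Dio B (m * (2 * m ^ 2 + K)) t i n} ⊆
      ⋃ w : Fin n → hfin.toFinset, {t : ℝ | ∃ i, (∀ q : Fin n,
        ((w q : _) : (ι → Fin m → ℤ) × (ι → Fin m → ℝ)) = (σ.dg (i + q), σ.ph (i + q))) ∧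
          ¬ σ.Dio B (m * (2 * m ^ 2 + K)) t i n} := by
    rintro t ⟨i, hi⟩
    rw [Set.mem_iUnion]
    exact ⟨fun q => ⟨(σ.dg (i + q), σ.ph (i + q)), by
      rw [Set.Finite.mem_toFinset]; exact ⟨i + q, rfl⟩⟩, i, fun q => rfl, hi⟩
  have hone : ∀ w : Fin n → hfin.toFinset, volume {t : ℝ | ∃ i, (∀ q : Fin n,
        ((w q : _) : (ι → Fin m → ℤ) × (ι → Fin m → ℝ)) = (σ.dg (i + q), σ.ph (i + q))) ∧
          ¬ σ.Dio B (m * (2 * m ^ 2 + K)) t i n} ≤
      ENNReal.ofReal (2 * (m : ℝ) ^ (m + 2) / (B : ℝ) ^ (K * n)) := by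
    intro w
    by_cases h : ∃ i, ∀ q : Fin n,
        ((w q : _) : (ι → Fin m → ℤ) × (ι → Fin m → ℝ)) = (σ.dg (i + q), σ.ph (i + q))
    · obtain ⟨i0, hi0⟩ := h
      refine le_trans (measure_mono ?_) (hM m K B ι σ i0 n hm hB hcard)
      rintro t ⟨i, hi, hdio⟩
      intro hc
      apply hdio
      rw [coreh_dio σ B _ t i i0 n]
      · exact hc
      · intro q
        have h1 := (hi q).symm.trans (hi0 q)
        exact ⟨congrArg Prod.fst h1, congrArg Prod.snd h1⟩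
    · have : {t : ℝ | ∃ i, (∀ q : Fin n,
        ((w q : _) : (ι → Fin m → ℤ) × (ι → Fin m → ℝ)) = (σ.dg (i + q), σ.ph (i + q))) ∧
          ¬ σ.Dio B (m * (2 * m ^ 2 + K)) t i n} = ∅ := by
        rw [Set.eq_empty_iff_forall_notMem]
        rintro t ⟨i, hi, _⟩
        exact h ⟨i, hi⟩
      rw [this, measure_empty]
      exact bot_le
  calc volume {t : ℝ | ∃ i, ¬ σ.Dio B (m * (2 * m ^ 2 + K)) t i n}
      ≤ volume (⋃ w : Fin n → hfin.toFinset, {t : ℝ | ∃ i, (∀ q : Fin n,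
        ((w q : _) : (ι → Fin m → ℤ) × (ι → Fin m → ℝ)) = (σ.dg (i + q), σ.ph (i + q))) ∧
          ¬ σ.Dio B (m * (2 * m ^ 2 + K)) t i n}) := measure_mono hsub
    _ ≤ ∑ w : Fin n → hfin.toFinset, volume {t : ℝ | ∃ i, (∀ q : Fin n,
        ((w q : _) : (ι → Fin m → ℤ) × (ι → Fin m → ℝ)) = (σ.dg (i + q), σ.ph (i + q))) ∧
          ¬ σ.Dio B (m * (2 * m ^ 2 + K)) t i n} := measure_iUnion_fintype_le _ _
    _ ≤ ∑ _w : Fin n → hfin.toFinset,
        ENNReal.ofReal (2 * (m : ℝ) ^ (m + 2) / (B : ℝ) ^ (K * n)) :=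
        Finset.sum_le_sum fun w _ => hone w
    _ = ENNReal.ofReal ((hfin.toFinset.card : ℝ) ^ n *
        (2 * (m : ℝ) ^ (m + 2) / (B : ℝ) ^ (K * n))) := by
        rw [Finset.sum_const, Finset.card_univ, Fintype.card_fun, Fintype.card_fin,
          Fintype.card_coe, nsmul_eq_mul, ENNReal.ofReal_mul (by positivity)]
        congr 1
        rw [ENNReal.ofReal_pow (by positivity), ENNReal.ofReal_natCast]
        push_cast
        rfl

/-- almost every parameter is Diophantine for all long windows -/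
theorem coreh_ae (hM : ST_DMEAS) {m B : ℕ} {ι : Type} [Fintype ι] (σ : Sys m ι) (hm : 1 ≤ m)
    (hB : 2 ≤ B) (hcard : Fintype.card ι ≤ B ^ m)
    (hfin : (Set.range fun j => (σ.dg j, σ.ph j)).Finite) :
    ∃ K : ℕ, ∀ᵐ t : ℝ, ∃ n1 : ℕ, ∀ n, n1 ≤ n → ∀ i, σ.Dio B (m * (2 * m ^ 2 + K)) t i n := by
  classical
  set s : ℕ := hfin.toFinset.card with hs
  refine ⟨2 * s, ?_⟩
  have hsB : (2 * s : ℝ) ≤ (B : ℝ) ^ (2 * s) := by
    have h1 : 2 * s < 2 ^ (2 * s) := Nat.lt_two_pow_self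
    have h2 : 2 ^ (2 * s) ≤ B ^ (2 * s) := Nat.pow_le_pow_left hB _
    have h3 : 2 * s ≤ B ^ (2 * s) := by omega
    exact_mod_cast h3
  have hB0 : (0 : ℝ) < B := by
    have : 0 < B := by omega
    exact_mod_cast this
  have hsum : ∑' n : ℕ, volume {t : ℝ | ∃ i, ¬ σ.Dio B (m * (2 * m ^ 2 + 2 * s)) t i n} ≠ ⊤ := by
    have hb : ∀ n : ℕ, volume {t : ℝ | ∃ i, ¬ σ.Dio B (m * (2 * m ^ 2 + 2 * s)) t i n} ≤
        ENNReal.ofReal (2 * (m : ℝ) ^ (m + 2) * (1 / 2) ^ n) := by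
      intro n
      refine le_trans (coreh_meas hM (K := 2 * s) σ hm hB hcard n hfin) ?_
      apply ENNReal.ofReal_le_ofReal
      rw [← hs, pow_mul]
      have h1 : (s : ℝ) ^ n ≤ ((B : ℝ) ^ (2 * s)) ^ n * (1 / 2) ^ n := by
        rw [← mul_pow]
        apply pow_le_pow_left₀ (by positivity)
        linarith
      have hpos : 0 < ((B : ℝ) ^ (2 * s)) ^ n := by positivity
      rw [mul_div_assoc', div_le_iff₀ hpos]
      have hmm : 0 ≤ 2 * (m : ℝ) ^ (m + 2) := by positivity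
      nlinarith [mul_le_mul_of_nonneg_right h1 hmm]
    refine ne_top_of_le_ne_top ?_ (ENNReal.tsum_le_tsum hb)
    rw [← ENNReal.ofReal_tsum_of_nonneg]
    · exact ENNReal.ofReal_ne_top
    · intro n; positivity
    · exact Summable.mul_left _ (summable_geometric_of_lt_one (by norm_num) (by norm_num))
  have := ae_eventually_notMem hsum
  filter_upwards [this] with t ht
  rw [Filter.eventually_atTop] at ht
  obtain ⟨n1, hn1⟩ := ht
  refine ⟨n1, fun n hn i => ?_⟩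
  by_contra hc
  exact hn1 n hn ⟨i, hc⟩

theorem st_COREH (hCL : ST_CLAIM) (hDG : ST_DGOOD) (hDM : ST_DMEAS) (hSUP : ST_SUP) (hFRM : ST_FRM) :
    ST_COREH := by
  classical
  intro m B R ε0 ε1 amin hm hB hR hε0 hε1 ι _ _ σ hOk hcardlog hfin
  have hcard : Fintype.card ι ≤ B ^ m := by
    have hinj := hOk.2.1 0
    have hmaps : ∀ s : ι, σ.dg 0 s ∈ Fintype.piFinset (fun _ : Fin m => Finset.Ico (0 : ℤ) B) := by
      intro s
      rw [Fintype.mem_piFinset]
      intro c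
      rw [Finset.mem_Ico]
      exact hOk.1 0 s c
    have h1 : (Finset.univ : Finset ι).card ≤
        (Fintype.piFinset (fun _ : Fin m => Finset.Ico (0 : ℤ) B)).card :=
      Finset.card_le_card_of_injOn (σ.dg 0) (fun s _ => hmaps s) (fun a _ b _ h => hinj h)
    rw [Fintype.card_piFinset] at h1
    simpa using h1
  obtain ⟨K, hK⟩ := coreh_ae hDM σ hm hB hcard hfin
  set C : ℕ := m * (2 * m ^ 2 + K) with hC
  obtain ⟨μ, hμ1, hμ⟩ : ∃ μ : ℕ, 1 ≤ μ ∧ C + m + 1 ≤ 2 ^ μ :=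
    ⟨C + m + 1, by omega, Nat.lt_two_pow_self.le⟩
  obtain ⟨n0, hn0⟩ := hDG m B C (2 ^ μ) R ε0 hm hB hR hε0 hμ
  obtain ⟨ϑ, hϑ, hcl⟩ := hCL m B μ R ε0 hm hB hR hε0 hμ1 m le_rfl (ε1 / 2) (ε1 / 2) (by positivity)
    (by positivity)
  filter_upwards [hK] with t ht h0 h1
  obtain ⟨n1, hn1⟩ := ht
  obtain ⟨a0, hca, ha0⟩ := hcl (max n0 n1)
  refine ⟨max a0 amin, le_max_right _ _, 1, fun N hN => ?_⟩
  set a : ℕ := max a0 amin with ha
  obtain ⟨b, hb1, hb2⟩ : ∃ b : ℕ, N ≤ 2 ^ b ∧ 2 ^ b ≤ 2 * N := by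
    rcases Nat.lt_or_ge N 2 with h | h
    · exact ⟨0, by omega, by omega⟩
    · refine ⟨Nat.clog 2 N, Nat.le_pow_clog (by norm_num) N, ?_⟩
      have h2 := Nat.pow_pred_clog_lt_self (b := 2) (by norm_num) (x := N) (by omega)
      have h3 : 0 < Nat.clog 2 N := Nat.clog_pos (by norm_num) h
      have h4 : Nat.clog 2 N = (Nat.clog 2 N).pred + 1 := by
        rw [Nat.pred_eq_sub_one]; omega
      rw [h4, pow_succ]
      omega
  have hgood : ∀ c, a0 ≤ a + b → (max n0 n1) ≤ c → c ≤ a0 →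
      (((Finset.range (2 ^ (a + b - c))).filter (fun q =>
      ¬ σ.Good B ε0 t (2 ^ μ) (q * 2 ^ c) (2 ^ c))).card : ℝ) ≤ ϑ * 2 ^ (a + b - c) := by
    intro c _ hc _
    have hempty : (Finset.range (2 ^ (a + b - c))).filter (fun q =>
      ¬ σ.Good B ε0 t (2 ^ μ) (q * 2 ^ c) (2 ^ c)) = ∅ := by
      rw [Finset.filter_eq_empty_iff]
      intro q _
      rw [not_not]
      have hcc : c < 2 ^ c := Nat.lt_two_pow_self
      exact hn0 ι σ t (q * 2 ^ c) (2 ^ c) hOk h0 h1 hcardlog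
        (by have := le_max_left n0 n1; omega)
        (hn1 (2 ^ c) (by have := le_max_right n0 n1; omega) _)
    rw [hempty]
    simp only [Finset.card_empty, Nat.cast_zero]
    positivity
  have hmain := ha0 (a + b) (by have := le_max_left a0 amin; omega) ι σ t hOk h0 h1
    (fun c hc hc' => hgood c (by have := le_max_left a0 amin; omega) hc hc') a
    (le_max_left _ _) (by omega)
  have hab : a + b - a = b := by omega
  rw [hab] at hmain
  have hlogB : 0 < Real.log B := Real.log_pos (by exact_mod_cast hB)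
  have hcc0 : 0 ≤ cc m B R := by
    unfold cc
    apply mul_nonneg (Nat.cast_nonneg _)
    apply Real.log_nonneg
    have : 0 ≤ 4 * (m : ℝ) * (R + B) := by positivity
    linarith
  have hsubset : ((Finset.range N).filter (fun q => ent (univ : Finset (Fin (2 ^ a) → ι))
        (fun u => fl (σ.P B t (q * 2 ^ a) (2 ^ a) u)) < (m - ε0 - ε1) * 2 ^ a * Real.log B)) ⊆
      ((Finset.range (2 ^ b)).filter (fun q =>
      σ.ee B R t m a q < m - ε0 - ε1 / 2)) := by
    intro q hq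
    rw [Finset.mem_filter, Finset.mem_range] at hq ⊢
    refine ⟨by omega, ?_⟩
    have hS := (hSUP m B R t ι σ m hm hB hR h0 h1 hOk le_rfl).2.2.2.2.1 1 (q * 2 ^ a) (2 ^ a)
      (hFRM.2.2.2.2.2.1 m)
    have hhh : σ.hh B t (1 : Matrix (Fin m) (Fin m) ℝ) (q * 2 ^ a) (2 ^ a)
        = ent (univ : Finset (Fin (2 ^ a) → ι)) (fun u => fl (σ.P B t (q * 2 ^ a) (2 ^ a) u)) := by
      unfold Sys.hh
      simp only [Matrix.one_mulVec]
    rw [hhh] at hS
    unfold Sys.ee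
    have hden : 0 < (2 : ℝ) ^ a * Real.log B := by positivity
    rw [div_lt_iff₀ hden]
    have hq2 := hq.2
    nlinarith [mul_pos hε1 hden]
  have hcardle := Finset.card_le_card hsubset
  have hfin1 : (((Finset.range N).filter (fun q => ent (univ : Finset (Fin (2 ^ a) → ι))
        (fun u => fl (σ.P B t (q * 2 ^ a) (2 ^ a) u)) < (m - ε0 - ε1) * 2 ^ a * Real.log B)).card : ℝ)
      ≤ ε1 / 2 * 2 ^ b := le_trans (by exact_mod_cast hcardle) hmain
  refine le_trans hfin1 ?_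
  have hb3 : ((2 : ℝ) ^ b) ≤ 2 * N := by exact_mod_cast hb2
  nlinarith

end Pool.Agent.Helper70.DK
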